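import Mathlib
import Pool.Agent.Lib.MP_042ec1_co.Defs
import Pool.Agent.Lib.MP_042ec1_co.Convert
import Pool.Agent.Lib.MP_1595d8_lc.H89Defs
import Pool.Agent.Lib.MP_1595d8_lc.H89Top

/-!
Graphs without an induced gem or `P₂ + P₃` have bounded clique-width.
-/

namespace Pool.Agent.Results.MP_1595d8_lc.CW

open Pool.Agent.Lib.MP_042ec1_co Pool.Agent.Lib.MP_1595d8_lc

/-- The class of `(gem, P₂ + P₃)`-free graphs has bounded clique-width. -/
theorem result : ∃ c : ℕ, ∀ (V : Type) [Fintype V] [Nonempty V] (G : SimpleGraph V),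
    IsEmpty (gem ↪g G) → IsEmpty (P2P3 ↪g G) → CliqueWidthLE G c := by
  classical
  obtain ⟨k, hk⟩ := wd_main
  exact ⟨3 * (k + 1), fun V _ _ G hg hp => cliqueWidthLE_of_wd (by omega)
    ((hk V G hg hp).mono (by omega))⟩

end Pool.Agent.Results.MP_1595d8_lc.CW
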