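import Mathlib
import Pool.Prelude.Def_H_3587d628
import Pool.Agent.Lib.MP_1595d8_lc.H89Defs
import Pool.Agent.Lib.MP_1595d8_lc.H89Top
import Pool.Agent.Lib.MP_1595d8_lc.H16Bridge

/-!
Graph isomorphism is decidable in polynomial time on graphs without an induced gem or `P₂ + P₃`.
-/

namespace Pool.Agent.Results.MP_1595d8_lc.GI

open Pool.Agent.Lib.MP_1595d8_lc

/-- One polynomial time test on pairs of adjacency matrices decides isomorphism whenever the
first graph has no induced gem and no induced `P₂ + P₃`. -/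
theorem result : ∃ d : List (List Bool) × List (List Bool) → Bool, N68a2faeb.IsPolyTime d ∧
    ∀ (m n : ℕ) (G : SimpleGraph (Fin m)) (H : SimpleGraph (Fin n)),
      IsEmpty (gem ↪g G) → IsEmpty (P2P3 ↪g G) →
      (d (adjM G, adjM H) = true ↔ Nonempty (G ≃g H)) := by
  classical
  obtain ⟨k, hk⟩ := wd_main
  obtain ⟨d, h1, h2⟩ := H16.gi_poly_wd k
  exact ⟨d, h1, fun m n G H hg hp => h2 m n G H (hk _ G hg hp)⟩

end Pool.Agent.Results.MP_1595d8_lc.GI
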